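import Pool.Agent.Y300.KS.Stm

/-! Project KS, task NEAR: in a good cell the field is close to the target. -/

set_option autoImplicit false

open Set MeasureTheory ProbabilityTheory Filter Topology

namespace Pool.Agent.Y815.KS

open Pool.Agent.K300 Pool.Agent.Y300.KS

/-- the sign of a block -/
noncomputable def sb {N : ℕ} (q : Cx N) : ℝ := if q.2.2 = 0 then -1 else 1

lemma abs_sb {N : ℕ} (q : Cx N) : |sb q| = 1 := by
  unfold sb; split_ifs <;> simp

lemma sb_mul {N : ℕ} (q : Cx N) : sb q * sb q = 1 := by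
  unfold sb; split_ifs <;> norm_num

lemma sg_kc {n I J G N : ℕ} {q : Cx N} {m : ℕ × ℕ} (hm : m ∈ kc n I J G q) : sg m = sb q := by
  have h := (Finset.mem_filter.1 hm).2
  unfold sg sb
  by_cases h0 : q.2.2 = 0
  · rw [if_pos h0]
    rw [h0, Fin.val_zero] at h
    rw [(Nat.even_iff.2 h).neg_one_pow]
  · rw [if_neg h0]
    have h1 : q.2.2 = 1 := by
      have := Fin.eq_zero_or_eq_succ q.2.2
      omega
    rw [h1, Fin.val_one] at h
    rw [(Nat.odd_iff.2 h).neg_one_pow, neg_neg]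

lemma pr_nonneg (n I J : ℕ) (m : ℕ × ℕ) : 0 ≤ pr n I J m := by
  unfold pr; positivity

lemma sp_nonneg (n I J : ℕ) (m : ℕ × ℕ) : 0 ≤ sp n I J m := Real.sqrt_nonneg _

lemma sp_sq (n I J : ℕ) (m : ℕ × ℕ) : sp n I J m ^ 2 = pr n I J m :=
  Real.sq_sqrt (pr_nonneg n I J m)

lemma wdw_tri (n I J : ℕ) : wdw n I J ⊆ tri n := Finset.filter_subset _ _

/-- decomposition of the sum -/
lemma loc_tri {n I J G N : ℕ} (hsub : ∀ q : Cx N, kc n I J G q ⊆ wdw n I J)
    (hd : ∀ q q' : Cx N, q ≠ q' → Disjoint (kc n I J G q) (kc n I J G q')) (y : ℕ × ℕ → ℝ)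
    (u v : ℝ) : loc n I J (tri n) y u v =
      ∑ q : Cx N, loc n I J (kc n I J G q) y u v + loc n I J (rst n I J G N) y u v +
        loc n I J (otw n I J) y u v := by
  have h1 : allC n I J G N ⊆ wdw n I J := by
    intro m hm
    obtain ⟨q, _, hq⟩ := Finset.mem_biUnion.1 hm
    exact hsub q hq
  have h2 := Finset.sum_sdiff h1 (f := fun m => y m * (sp n I J m *
    Real.exp (sx n I m.1 * u + sx n J m.2 * v)))
  have h3 := Finset.sum_sdiff (wdw_tri n I J) (f := fun m => y m * (sp n I J m *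
    Real.exp (sx n I m.1 * u + sx n J m.2 * v)))
  have h4 : ∑ m ∈ allC n I J G N, y m * (sp n I J m *
      Real.exp (sx n I m.1 * u + sx n J m.2 * v)) =
      ∑ q : Cx N, loc n I J (kc n I J G q) y u v := by
    unfold allC loc
    rw [Finset.sum_biUnion]
    intro q _ q' _ hqq
    exact hd q q' hqq
  unfold loc at h4 ⊢
  unfold rst otw
  rw [← h4, ← h3, ← h2]
  ring

/-- the exponential factor on a block is almost constant -/
lemma exp_blk {s t a b u v B G : ℝ} (hB : 0 ≤ B) (hG : 2 * B + 1 ≤ G) (hs : |s - a| ≤ 1 / G)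
    (ht : |t - b| ≤ 1 / G) (hu : |u| ≤ B) (hv : |v| ≤ B) :
    |Real.exp (s * u + t * v) - Real.exp (a * u + b * v)| ≤
      Real.exp (a * u + b * v) * (4 * B / G) := by
  have hG0 : 0 < G := by linarith
  have h1 : |(s - a) * u + (t - b) * v| ≤ 2 * B / G := by
    refine (abs_add_le _ _).trans ?_
    rw [abs_mul, abs_mul]
    have e1 : |s - a| * |u| ≤ 1 / G * B := mul_le_mul hs hu (abs_nonneg _) (by positivity)
    have e2 : |t - b| * |v| ≤ 1 / G * B := mul_le_mul ht hv (abs_nonneg _) (by positivity)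
    have e3 : 1 / G * B + 1 / G * B = 2 * B / G := by ring
    linarith
  have h2 : 2 * B / G ≤ 1 := by
    rw [div_le_one hG0]; linarith
  have h3 := Real.abs_exp_sub_one_le (h1.trans h2)
  have h4 : Real.exp (s * u + t * v) - Real.exp (a * u + b * v) =
      Real.exp (a * u + b * v) * (Real.exp ((s - a) * u + (t - b) * v) - 1) := by
    rw [mul_sub, ← Real.exp_add, mul_one]
    congr 2
    ring
  rw [h4, abs_mul, abs_of_pos (Real.exp_pos _)]
  refine mul_le_mul_of_nonneg_left (h3.trans ?_) (Real.exp_pos _).le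
  calc 2 * |(s - a) * u + (t - b) * v| ≤ 2 * (2 * B / G) := by linarith
    _ = 4 * B / G := by ring

/-- the sum of the weights over a block, in the local coordinates -/
lemma sum_blk (n I J : ℕ) (A : Finset (ℕ × ℕ)) {a b u v B G : ℝ} (hB : 0 ≤ B)
    (hG : 2 * B + 1 ≤ G) (hs : ∀ m ∈ A, |sx n I m.1 - a| ≤ 1 / G ∧ |sx n J m.2 - b| ≤ 1 / G)
    (hu : |u| ≤ B) (hv : |v| ≤ B) :
    |∑ m ∈ A, sp n I J m * Real.exp (sx n I m.1 * u + sx n J m.2 * v) -
      (∑ m ∈ A, sp n I J m) * Real.exp (a * u + b * v)| ≤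
      (∑ m ∈ A, sp n I J m) * (Real.exp (a * u + b * v) * (4 * B / G)) := by
  rw [Finset.sum_mul, ← Finset.sum_sub_distrib, Finset.sum_mul]
  refine (Finset.abs_sum_le_sum_abs _ _).trans (Finset.sum_le_sum fun m hm => ?_)
  rw [← mul_sub, abs_mul, abs_of_nonneg (sp_nonneg _ _ _ _)]
  exact mul_le_mul_of_nonneg_left (exp_blk hB hG (hs m hm).1 (hs m hm).2 hu hv)
    (sp_nonneg _ _ _ _)

/-- the mean part of a block -/
lemma mean_blk {T s x z hw E Mx Wt h F : ℝ} {v : ℤ} {B G : ℝ} (hT : 0 < T) (hs : 0 < s)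
    (hTs : T ≤ 2 * s) (hB : 0 ≤ B) (hG : 2 * B + 1 ≤ G) (hz : |z| = 1) (hzz : z * z = 1)
    (hv : |(v : ℝ) - z * (hw * (s / T))| ≤ 1 / 2) (hx : |s * x - v| < 1 / 2)
    (hE0 : 0 ≤ E) (hE : E ≤ Mx) (hwW : |hw| ≤ h / 2 * Wt)
    (hF : |F - T * E| ≤ T * (E * (4 * B / G))) :
    |z * x * F - hw * E| ≤ 6 * Mx + 2 * h * Wt * Mx * B / G := by
  have hG0 : 0 < G := by linarith
  have h1 : |s * x - z * (hw * (s / T))| ≤ 1 := by
    have e1 : s * x - z * (hw * (s / T)) = (s * x - v) + (v - z * (hw * (s / T))) := by ring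
    rw [e1]
    refine (abs_add_le _ _).trans ?_
    linarith
  have h2 : |z * x * T - hw| ≤ 2 := by
    have e1 : z * x * T - hw = (z * (s * x - z * (hw * (s / T)))) * (T / s) := by
      have : z * (s * x - z * (hw * (s / T))) = z * s * x - (z * z) * (hw * (s / T)) := by ring
      rw [this, hzz]
      field_simp
    rw [e1, abs_mul, abs_mul, hz, one_mul, abs_of_pos (div_pos hT hs)]
    calc |s * x - z * (hw * (s / T))| * (T / s) ≤ 1 * 2 := by
          refine mul_le_mul h1 ?_ (div_pos hT hs).le zero_le_one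
          rw [div_le_iff₀ hs]; exact hTs
      _ = 2 := by norm_num
  have h3 : |x| * T ≤ h / 2 * Wt + 2 := by
    have e1 : |z * x * T| = |x| * T := by rw [abs_mul, abs_mul, hz, one_mul, abs_of_pos hT]
    rw [← e1]
    have e2 : z * x * T = (z * x * T - hw) + hw := by ring
    rw [e2]
    refine (abs_add_le _ _).trans ?_
    linarith
  have hMx0 : 0 ≤ Mx := hE0.trans hE
  have h4 : |z * x * F - hw * E| ≤ |x| * (T * (E * (4 * B / G))) + 2 * E := by
    have e1 : z * x * F - hw * E = z * x * (F - T * E) + (z * x * T - hw) * E := by ring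
    rw [e1]
    refine (abs_add_le _ _).trans (add_le_add ?_ ?_)
    · rw [abs_mul, abs_mul, hz, one_mul]
      exact mul_le_mul_of_nonneg_left hF (abs_nonneg _)
    · rw [abs_mul, abs_of_nonneg hE0]
      exact mul_le_mul_of_nonneg_right h2 hE0
  have h5 : |x| * (T * (E * (4 * B / G))) ≤ (h / 2 * Wt + 2) * (Mx * (4 * B / G)) := by
    rw [← mul_assoc]
    refine mul_le_mul h3 ?_ (by positivity) ((mul_nonneg (abs_nonneg _) hT.le).trans h3)
    exact mul_le_mul_of_nonneg_right hE (by positivity)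
  have h6 : 4 * B / G ≤ 2 := by
    rw [div_le_iff₀ hG0]; linarith
  have h7 : Mx * (4 * B / G) ≤ Mx * 2 := mul_le_mul_of_nonneg_left h6 hMx0
  have h8 : (h / 2 * Wt + 2) * (Mx * (4 * B / G)) =
      2 * h * Wt * Mx * B / G + 2 * (Mx * (4 * B / G)) := by ring
  linarith

theorem near_all (ha : S_ABS) (hl : S_LOW) (hs : S_SUP) (hb : S_BLK) : S_NEAR := by
  intro N w B hB
  -- the constants
  set Wt : ℝ := 1 + ∑ c : Fin 2, ∑ a : Fin N, ∑ b : Fin N, |w c a b| with hWt
  have hw : ∀ c a b, |w c a b| ≤ Wt := by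
    intro c a b
    have h1 : |w c a b| ≤ ∑ b : Fin N, |w c a b| :=
      Finset.single_le_sum (f := fun b => |w c a b|) (fun _ _ => abs_nonneg _) (Finset.mem_univ b)
    have h2 : ∑ b : Fin N, |w c a b| ≤ ∑ a : Fin N, ∑ b : Fin N, |w c a b| :=
      Finset.single_le_sum (f := fun a => ∑ b : Fin N, |w c a b|)
        (fun _ _ => Finset.sum_nonneg fun _ _ => abs_nonneg _) (Finset.mem_univ a)
    have h3 : ∑ a : Fin N, ∑ b : Fin N, |w c a b| ≤
        ∑ c : Fin 2, ∑ a : Fin N, ∑ b : Fin N, |w c a b| :=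
      Finset.single_le_sum (f := fun c => ∑ a : Fin N, ∑ b : Fin N, |w c a b|)
        (fun _ _ => Finset.sum_nonneg fun _ _ => Finset.sum_nonneg fun _ _ => abs_nonneg _)
        (Finset.mem_univ c)
    linarith
  have hWt0 : 0 ≤ Wt := by
    have : 0 ≤ ∑ c : Fin 2, ∑ a : Fin N, ∑ b : Fin N, |w c a b| :=
      Finset.sum_nonneg fun _ _ => Finset.sum_nonneg fun _ _ => Finset.sum_nonneg fun _ _ =>
        abs_nonneg _
    linarith
  set Mx : ℝ := Real.exp (2 * B * N) with hMx
  have hMx0 : 0 < Mx := Real.exp_pos _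
  obtain ⟨G, hG⟩ := exists_nat_ge (max (2 * B + 1) (128 * (N:ℝ) ^ 2 * Wt * Mx * B))
  have hG1 : 2 * B + 1 ≤ G := (le_max_left _ _).trans hG
  have hG2 : 128 * (N:ℝ) ^ 2 * Wt * Mx * B ≤ G := (le_max_right _ _).trans hG
  have hG0 : (0:ℝ) < G := by linarith
  have hGn : 1 ≤ G := by
    have : (1:ℝ) ≤ G := by linarith
    exact_mod_cast this
  set K₁ : ℝ := 2 * √(8 * CB B) + 6 * Mx with hK₁
  have hK₁0 : 0 ≤ K₁ := by positivity
  set h : ℝ := 1 + 32 * ((N * (N * 2) : ℕ) * K₁ + 2 * √(2 * CB B) + 2) with hh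
  have hh1 : 1 ≤ h := by
    have : 0 ≤ ((N * (N * 2) : ℕ) : ℝ) * K₁ + 2 * √(2 * CB B) + 2 := by positivity
    linarith
  obtain ⟨c₀, hc₀, n₁, hlow⟩ := hl (N + 1)
  obtain ⟨A, hA⟩ := exists_nat_ge (h / 2 * Wt * (3 * G / c₀) + 1)
  obtain ⟨n₂, hblk⟩ := hb G N 1 hGn
  obtain ⟨k, hk⟩ := exists_nat_ge (4 * B)
  refine ⟨h, G, A, max (max n₁ n₂) ((k + 1) * (k + 1)), hh1, hGn, ?_⟩
  intro n hn I J hC
  have hn1 : n₁ ≤ n := ((le_max_left _ _).trans (le_max_left _ _)).trans hn
  have hn2 : n₂ ≤ n := ((le_max_right _ _).trans (le_max_left _ _)).trans hn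
  have hn3 : (k + 1) * (k + 1) ≤ n := (le_max_right _ _).trans hn
  have hell : k + 1 ≤ ell n := Nat.le_sqrt.2 hn3
  have hell0 : (0:ℝ) < ell n := by
    have : 0 < ell n := by omega
    exact_mod_cast this
  have hnpos : 0 < n := lt_of_lt_of_le (Nat.mul_pos (Nat.succ_pos k) (Nat.succ_pos k)) hn3
  have hIJ : I + J ≤ n := by have := hC.hK; omega
  have h4B : 4 * B ≤ ell n := by
    have : ((k + 1 : ℕ) : ℝ) ≤ ell n := by exact_mod_cast hell
    push_cast at this
    linarith
  obtain ⟨hq, hd⟩ := hblk n hn2 I J hC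
  have hsub : ∀ q : Cx N, kc n I J G q ⊆ wdw n I J := fun q => (hq q).2.1
  have hsubt : ∀ q : Cx N, kc n I J G q ⊆ tri n := fun q => (hsub q).trans (wdw_tri n I J)
  -- energy bound
  have hCB0 : 0 ≤ CB B := by unfold CB; positivity
  have hen : ∀ q : Cx N, ∑ m ∈ kc n I J G q, pr n I J m * Real.exp (4 * B * ab n I J m) ≤
      CB B := by
    intro q
    have h1 := ha n I J hnpos hIJ (4 * B) (by linarith) h4B
    have h2 : 4 * Real.exp (8 * (4 * B) ^ 2) = CB B := by
      unfold CB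
      congr 2
      ring
    rw [h2] at h1
    exact (Finset.sum_le_sum_of_subset_of_nonneg (hsubt q) fun m _ _ =>
      mul_nonneg (pr_nonneg _ _ _ _) (Real.exp_pos _).le).trans h1
  have hpr : ∀ q : Cx N, ∑ m ∈ kc n I J G q, pr n I J m ≤ 4 := by
    intro q
    have h1 := ha n I J hnpos hIJ 0 le_rfl hell0.le
    simp only [zero_mul, Real.exp_zero, mul_one, ne_eq, OfNat.ofNat_ne_zero, not_false_eq_true,
      zero_pow, mul_zero] at h1
    exact (Finset.sum_le_sum_of_subset_of_nonneg (hsubt q) fun m _ _ =>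
      pr_nonneg _ _ _ _).trans h1
  -- the block sums
  let T : Cx N → ℝ := fun q => ∑ m ∈ kc n I J G q, sp n I J m
  let s : Cx N → ℝ := fun q => √((kc n I J G q).card : ℝ)
  have hcard : ∀ q : Cx N, (1:ℝ) ≤ (kc n I J G q).card := fun q => by exact_mod_cast (hq q).1
  have hs0 : ∀ q, 0 < s q := fun q => Real.sqrt_pos.2 (by linarith [hcard q])
  have hssq : ∀ q, s q ^ 2 = (kc n I J G q).card := fun q =>
    Real.sq_sqrt (by linarith [hcard q])
  have hTle : ∀ q, T q ≤ 2 * s q := by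
    intro q
    refine le_of_sq_le_sq ?_ (by linarith [hs0 q])
    have h1 := sq_sum_le_card_mul_sum_sq (s := kc n I J G q) (f := fun m => sp n I J m)
    simp only [sp_sq] at h1
    calc T q ^ 2 ≤ (kc n I J G q).card * ∑ m ∈ kc n I J G q, pr n I J m := h1
      _ ≤ (kc n I J G q).card * 4 := mul_le_mul_of_nonneg_left (hpr q) (Nat.cast_nonneg _)
      _ = (2 * s q) ^ 2 := by rw [mul_pow, hssq]; ring
  have hTge : ∀ q, (kc n I J G q).card * (c₀ / ell n) ≤ T q := by
    intro q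
    have h1 : ∀ m ∈ kc n I J G q, c₀ / ell n ≤ sp n I J m := by
      intro m hm
      obtain ⟨g1, g2⟩ := (hq q).2.2.2 m hm
      have g3 : (1:ℝ) / G ≤ 1 := by
        rw [div_le_one hG0]; exact_mod_cast hGn
      have g4 : ((q.1 : ℕ) : ℝ) ≤ N := by exact_mod_cast q.1.2.le
      have g5 : ((q.2.1 : ℕ) : ℝ) ≤ N := by exact_mod_cast q.2.1.2.le
      have g6 : (0:ℝ) ≤ ((q.1 : ℕ) : ℝ) := Nat.cast_nonneg _
      have g7 : (0:ℝ) ≤ ((q.2.1 : ℕ) : ℝ) := Nat.cast_nonneg _
      have g8 := hlow n hn1 I J hC m (hsubt q hm) (by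
        rw [abs_le] at g1 ⊢
        constructor <;> linarith [g1.1, g1.2]) (by
        rw [abs_le] at g2 ⊢
        constructor <;> linarith [g2.1, g2.2])
      rw [div_le_iff₀ hell0, mul_comm]
      exact g8
    have h2 := Finset.sum_le_sum h1
    rwa [Finset.sum_const, nsmul_eq_mul] at h2
  have hT0 : ∀ q, 0 < T q := fun q =>
    lt_of_lt_of_le (mul_pos (by linarith [hcard q]) (div_pos hc₀ hell0)) (hTge q)
  have hsT : ∀ q, s q / T q ≤ 3 * G / c₀ := by
    intro q
    have h1 : s q / T q ≤ ell n / (c₀ * s q) := by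
      rw [div_le_div_iff₀ (hT0 q) (mul_pos hc₀ (hs0 q))]
      have h2 := hTge q
      rw [← hssq q] at h2
      have h3 : ell n * (s q ^ 2 * (c₀ / ell n)) ≤ ell n * T q :=
        mul_le_mul_of_nonneg_left h2 hell0.le
      have h4 : ell n * (s q ^ 2 * (c₀ / ell n)) = s q * (c₀ * s q) := by
        field_simp
      rw [h4] at h3
      exact h3
    refine h1.trans ?_
    have h5 : (ell n : ℝ) ≤ 3 * G * s q := by
      have h6 := (hq q).2.2.1
      have h7 : √(2 * ((kc n I J G q).card : ℝ)) = √2 * s q := Real.sqrt_mul (by norm_num) _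
      rw [h7] at h6
      have h8 : √2 ≤ (3:ℝ) / 2 := by
        rw [Real.sqrt_le_left (by norm_num)]
        norm_num
      have h9 : 2 * (G:ℝ) * (√2 * s q) ≤ 2 * (G:ℝ) * (3 / 2 * s q) := by
        have := hs0 q
        gcongr
      calc (ell n : ℝ) ≤ _ := h6
        _ ≤ _ := h9
        _ = 3 * G * s q := by ring
    rw [div_le_div_iff₀ (mul_pos hc₀ (hs0 q)) hc₀]
    calc (ell n : ℝ) * c₀ ≤ (3 * G * s q) * c₀ := mul_le_mul_of_nonneg_right h5 hc₀.le
      _ = 3 * G * (c₀ * s q) := by ring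
  -- the integers
  let hw' : Fin 2 → Cx N → ℝ := fun c q => h / 2 * w c q.1 q.2.1
  have hw'W : ∀ c q, |hw' c q| ≤ h / 2 * Wt := by
    intro c q
    simp only [hw']
    rw [abs_mul, abs_of_nonneg (by linarith : (0:ℝ) ≤ h / 2)]
    exact mul_le_mul_of_nonneg_left (hw _ _ _) (by linarith)
  refine ⟨fun c q => round (sb q * (hw' c q * (s q / T q))), ?_, ?_⟩
  · intro c q
    have h1 := abs_sub_round (sb q * (hw' c q * (s q / T q)))
    set v := round (sb q * (hw' c q * (s q / T q))) with hv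
    have h2 : |sb q * (hw' c q * (s q / T q))| ≤ h / 2 * Wt * (3 * G / c₀) := by
      rw [abs_mul, abs_sb, one_mul, abs_mul, abs_of_pos (div_pos (hs0 q) (hT0 q))]
      exact mul_le_mul (hw'W c q) (hsT q) (div_pos (hs0 q) (hT0 q)).le
        (mul_nonneg (by linarith) hWt0)
    have h3 : |(v : ℝ)| ≤ A := by
      have h4 : (v : ℝ) = sb q * (hw' c q * (s q / T q)) -
        (sb q * (hw' c q * (s q / T q)) - v) := by ring
      rw [h4]
      refine (abs_sub _ _).trans ?_
      linarith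
    have h5 : ((|v| : ℤ) : ℝ) ≤ ((A : ℤ) : ℝ) := by
      rw [Int.cast_abs]
      exact_mod_cast h3
    exact_mod_cast h5
  · intro ξ hξ hO c u v' hu hv
    rw [loc_tri hsub hd]
    set y : ℕ × ℕ → ℝ := fun m => sg m * ξ (c, m) with hy
    obtain ⟨hξ1, hξ2⟩ := hξ c
    have hrst : |loc n I J (rst n I J G N) y u v'| ≤ 2 * √(2 * CB B) :=
      hs n I J _ y B _ hB hξ2 u v' hu hv
    have hotw : |loc n I J (otw n I J) y u v'| ≤ 2 := by
      have := hs n I J _ y B _ hB (hO c) u v' hu hv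
      rwa [Real.sqrt_one, mul_one] at this
    -- the blocks
    let E : Cx N → ℝ := fun q => Real.exp (((q.1 : ℕ) : ℝ) * u + ((q.2.1 : ℕ) : ℝ) * v')
    have hE : ∀ q, E q ≤ Mx := by
      intro q
      refine Real.exp_le_exp.2 ?_
      have g4 : ((q.1 : ℕ) : ℝ) ≤ N := by exact_mod_cast q.1.2.le
      have g5 : ((q.2.1 : ℕ) : ℝ) ≤ N := by exact_mod_cast q.2.1.2.le
      have g6 : (0:ℝ) ≤ ((q.1 : ℕ) : ℝ) := Nat.cast_nonneg _
      have g7 : (0:ℝ) ≤ ((q.2.1 : ℕ) : ℝ) := Nat.cast_nonneg _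
      have g8 : ((q.1 : ℕ) : ℝ) * u ≤ N * B := (mul_le_mul_of_nonneg_left
        ((le_abs_self u).trans hu) g6).trans (mul_le_mul_of_nonneg_right g4 hB)
      have g9 : ((q.2.1 : ℕ) : ℝ) * v' ≤ N * B := (mul_le_mul_of_nonneg_left
        ((le_abs_self v').trans hv) g7).trans (mul_le_mul_of_nonneg_right g5 hB)
      linarith
    have hblock : ∀ q : Cx N, |loc n I J (kc n I J G q) y u v' - hw' c q * E q| ≤
        K₁ + 2 * h * Wt * Mx * B / G := by
      intro q
      obtain ⟨g1, g2⟩ := hξ1 q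
      set x := cm (kc n I J G q) (fun m => ξ (c, m)) with hx
      set F := ∑ m ∈ kc n I J G q, sp n I J m * Real.exp (sx n I m.1 * u + sx n J m.2 * v')
        with hF
      have e1 : loc n I J (kc n I J G q) y u v' = sb q * x * F +
          sb q * loc n I J (kc n I J G q) (fun m => ξ (c, m) - x) u v' := by
        unfold loc
        rw [hF, Finset.mul_sum, Finset.mul_sum, ← Finset.sum_add_distrib]
        refine Finset.sum_congr rfl fun m hm => ?_
        simp only [hy]
        rw [sg_kc hm]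
        ring
      have e2 : |loc n I J (kc n I J G q) (fun m => ξ (c, m) - x) u v'| ≤ 2 * √(8 * CB B) := by
        refine (hs n I J _ _ B _ hB g2 u v' hu hv).trans ?_
        refine mul_le_mul_of_nonneg_left (Real.sqrt_le_sqrt ?_) (by norm_num)
        exact mul_le_mul_of_nonneg_left (hen q) (by norm_num)
      have e3 := sum_blk n I J (kc n I J G q) hB hG1 (hq q).2.2.2 hu hv
      have e4 := mean_blk (T := T q) (s := s q) (x := x) (z := sb q) (hw := hw' c q) (E := E q)
        (Mx := Mx) (Wt := Wt) (h := h) (F := F)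
        (v := round (sb q * (hw' c q * (s q / T q)))) (hT0 q) (hs0 q) (hTle q) hB hG1 (abs_sb q)
        (sb_mul q) (by
          rw [abs_sub_comm]
          exact abs_sub_round _) g1 (Real.exp_pos _).le (hE q) (hw'W c q) e3
      have e5 : loc n I J (kc n I J G q) y u v' - hw' c q * E q =
          (sb q * x * F - hw' c q * E q) +
          sb q * loc n I J (kc n I J G q) (fun m => ξ (c, m) - x) u v' := by
        rw [e1]; ring
      rw [e5]
      refine (abs_add_le _ _).trans ?_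
      rw [abs_mul, abs_sb, one_mul]
      linarith
    have hsum : h * ∑ a : Fin N, ∑ b : Fin N, w c a b * Real.exp ((a:ℕ) * u + (b:ℕ) * v') =
        ∑ q : Cx N, hw' c q * E q := by
      rw [Fintype.sum_prod_type, Finset.mul_sum]
      refine Finset.sum_congr rfl fun a _ => ?_
      rw [Fintype.sum_prod_type, Finset.mul_sum]
      refine Finset.sum_congr rfl fun b _ => ?_
      rw [Fin.sum_univ_two]
      simp only [hw', E]
      ring
    rw [hsum]
    have htot : |∑ q : Cx N, loc n I J (kc n I J G q) y u v' - ∑ q : Cx N, hw' c q * E q| ≤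
        (N * (N * 2) : ℕ) * (K₁ + 2 * h * Wt * Mx * B / G) := by
      rw [← Finset.sum_sub_distrib]
      refine (Finset.abs_sum_le_sum_abs _ _).trans ?_
      refine (Finset.sum_le_sum fun q _ => hblock q).trans ?_
      rw [Finset.sum_const, nsmul_eq_mul, Finset.card_univ]
      simp only [Fintype.card_prod, Fintype.card_fin]
      exact le_rfl
    have hlast : ((N * (N * 2) : ℕ) : ℝ) * (2 * h * Wt * Mx * B / G) ≤ h / 32 := by
      push_cast
      have e1 : (N:ℝ) * (N * 2) * (2 * h * Wt * Mx * B / G) =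
          h / 32 * (128 * (N:ℝ) ^ 2 * Wt * Mx * B / G) := by
        field_simp
        ring
      rw [e1]
      have e2 : 128 * (N:ℝ) ^ 2 * Wt * Mx * B / G ≤ 1 := by
        rw [div_le_one hG0]; exact hG2
      have e3 : 0 ≤ h / 32 := by linarith
      calc h / 32 * (128 * (N:ℝ) ^ 2 * Wt * Mx * B / G) ≤ h / 32 * 1 :=
            mul_le_mul_of_nonneg_left e2 e3
        _ = h / 32 := mul_one _
    have e6 : ∑ q : Cx N, loc n I J (kc n I J G q) y u v' +
        loc n I J (rst n I J G N) y u v' + loc n I J (otw n I J) y u v' -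
        ∑ q : Cx N, hw' c q * E q =
        (∑ q : Cx N, loc n I J (kc n I J G q) y u v' - ∑ q : Cx N, hw' c q * E q) +
        loc n I J (rst n I J G N) y u v' + loc n I J (otw n I J) y u v' := by ring
    rw [e6]
    refine (abs_add_le _ _).trans ?_
    have e7 := abs_add_le (∑ q : Cx N, loc n I J (kc n I J G q) y u v' -
      ∑ q : Cx N, hw' c q * E q) (loc n I J (rst n I J G N) y u v')
    have e8 : ((N * (N * 2) : ℕ) : ℝ) * (K₁ + 2 * h * Wt * Mx * B / G) =
      ((N * (N * 2) : ℕ) : ℝ) * K₁ + ((N * (N * 2) : ℕ) : ℝ) * (2 * h * Wt * Mx * B / G) := by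
      ring
    rw [e8] at htot
    linarith

end Pool.Agent.Y815.KS
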